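import Pool.Agent.MVD.StmtsLoc

set_option autoImplicit false

namespace Pool.Agent.MVD.H43

open Pool.Agent.Helper14_MV Pool.Agent.Helper2_MV Pool.Agent.MVD

/-- the word around the main block -/
theorem Wk_eq (κ : ℕ → ℕ) (P Q L : List ℕ) : Wk κ P Q L =
    P.flatMap (fun i => [κ i, 3 * (i + 1) + 2]) ++
      (L ++ (2 :: Q.flatMap (fun i => [κ i, 3 * (i + 1) + 2]))) := by
  have h : ∀ P : List ℕ, (P.map (fun e => e + 1)).flatMap
      (fun r => (if r = 0 then L else [κ (r - 1)]) ++ [3 * r + 2]) =
        P.flatMap (fun i => [κ i, 3 * (i + 1) + 2]) := by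
    intro P
    induction P with
    | nil => rfl
    | cons a P ih =>
      rw [List.map_cons, List.flatMap_cons, ih, List.flatMap_cons, if_neg (by omega)]
      simp
  unfold Wk Bw lab
  rw [List.flatMap_append, List.flatMap_cons, h, h]
  simp

theorem rrt {β : FIC} {a b c : List ℕ} (h : RR β a b) (h' : RR β b c) : RR β a c :=
  β.trans h h'

/-- row ERD -/
theorem erd (hEIS : EisStmt) (hCTX : CtxStmt) : ErdStmt := by
  intro β n x y s1 s2 P1 P2 P3 Q α hE α' hperm hRR
  obtain ⟨_, hS2, _⟩ := hCTX β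
  have s2' := hS2 hE.hc.s2
  have hff := hE.hc.ff
  have hzz := hE.hc.zz
  have hef := hE.ef
  have hcan := hE.can
  set A : List ℕ := (P1 ++ s1 :: (P2 ++ s2 :: P3)).flatMap
    (fun i => [kx x s1 s2 i, 3 * (i + 1) + 2]) with hA
  set Z : List ℕ := 2 :: Q.flatMap (fun i => [kx x s1 s2 i, 3 * (i + 1) + 2]) with hZ
  have hEW : ∀ K, EW x s1 s2 P1 P2 P3 Q K = A ++ (K ++ Z) := fun K => by
    unfold EW
    rw [Wk_eq]
  have hnd := hE.nd
  -- counts
  have hxA : 2 ≤ A.count x := by
    have k1 : kx x s1 s2 s1 = x := by simp [kx]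
    have k2 : kx x s1 s2 s2 = x := by simp [kx]
    rw [hA]
    simp only [List.flatMap_append, List.flatMap_cons, k1, k2, List.count_append,
      List.count_cons_self, List.cons_append, List.nil_append]
    have e1 : (3 * (s1 + 1) + 2 : ℕ) ≠ x := by have := hE.hx.1; omega
    have e2 : (3 * (s2 + 1) + 2 : ℕ) ≠ x := by have := hE.hx.1; omega
    rw [List.count_cons_of_ne e1, List.count_append, List.count_cons_self]
    omega
  have hkP : ∀ i ∈ P1 ++ (P2 ++ P3), kx x s1 s2 i = 3 * i + 1 := by
    intro i hi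
    unfold kx
    rw [if_neg]
    simp only [List.nodup_append, List.nodup_cons, List.mem_append, List.mem_cons, not_or] at hnd hi
    obtain ⟨⟨_, ⟨⟨a1, _, a3⟩, _, ⟨b1, _⟩, b2⟩, c1⟩, _, _⟩ := hnd
    rintro (rfl | rfl)
    · rcases hi with h | h | h
      · exact c1 i h i (Or.inl rfl) rfl
      · exact a1 h
      · exact a3 h
    · rcases hi with h | h | h
      · exact c1 i h i (by simp) rfl
      · exact b2 i h i (Or.inl rfl) rfl
      · exact b1 h
  have hkQ : ∀ i ∈ Q, kx x s1 s2 i = 3 * i + 1 := by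
    intro i hi
    unfold kx
    rw [if_neg]
    rw [List.nodup_append] at hnd
    rintro (rfl | rfl)
    · exact hnd.2.2 i (by simp) i hi rfl
    · exact hnd.2.2 i (by simp) i hi rfl
  have hPA : ∀ i ∈ P1 ++ (P2 ++ P3), 3 * i + 1 ∈ A := by
    intro i hi
    rw [hA, List.mem_flatMap]
    refine ⟨i, ?_, ?_⟩
    · simp only [List.mem_append, List.mem_cons] at hi ⊢
      tauto
    · rw [hkP i hi]; simp
  have hQZ : ∀ i ∈ Q, 3 * i + 1 ∈ Z := by
    intro i hi
    rw [hZ, List.mem_cons, List.mem_flatMap]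
    right
    exact ⟨i, hi, by rw [hkQ i hi]; simp⟩
  have hα' : ∀ a ∈ α', (a % 3 = 1 ∧ ((∃ i ∈ P1 ++ (P2 ++ P3), a = 3 * i + 1) ∨
      ∃ i ∈ Q, a = 3 * i + 1)) ∨ (a % 3 = 0 ∧ α'.count a = 2) := by
    intro a ha
    have ha' : a ∈ α := hperm.mem_iff.mp ha
    have h1 := hcan.sf a ha'
    by_cases h0 : a % 3 = 0
    · right
      exact ⟨h0, by rw [hperm.count_eq]; exact (hcan.lc a ha' h0).1⟩
    · left
      have h2 : a % 3 = 1 := by omega
      obtain ⟨i, hi, e⟩ := hcan.ps a ha' h2
      rw [List.mem_append] at hi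
      rcases hi with hi | hi
      · exact ⟨h2, Or.inl ⟨i, hi, e⟩⟩
      · exact ⟨h2, Or.inr ⟨i, hi, e⟩⟩
  have hM : ∀ K : List ℕ, (∀ a, K.count a = (y :: (α' ++ [x, y])).count a) →
      ∀ a ∈ K, 2 ≤ (A ++ (K ++ Z)).count a := by
    intro K hK a ha
    have h1 : 0 < K.count a := List.count_pos_iff.mpr ha
    have h2 := hK a
    rw [List.count_append, List.count_append]
    have h3 : a ∈ (y :: (α' ++ [x, y])) := by
      rw [← List.count_pos_iff]; omega
    simp only [List.mem_cons, List.mem_append, List.not_mem_nil, or_false] at h3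
    have hcase : a = y ∨ a = x ∨ a ∈ α' := by tauto
    rcases hcase with rfl | rfl | h4
    · rw [List.count_cons_self, List.count_append] at h2
      have h5 : 1 ≤ [x, a].count a := List.count_pos_iff.mpr (by simp)
      omega
    · omega
    · have h5 : α'.count a ≤ K.count a := by
        rw [h2]
        exact ((List.sublist_append_left α' [x, y]).cons y).count_le a
      rcases hα' a h4 with ⟨_, ⟨i, hi, e⟩ | ⟨i, hi, e⟩⟩ | ⟨_, h6⟩
      · have h7 : 0 < A.count a := List.count_pos_iff.mpr (by rw [e]; exact hPA i hi)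
        omega
      · have h7 : 0 < Z.count a := List.count_pos_iff.mpr (by rw [e]; exact hQZ i hi)
        omega
      · omega
  -- the steps
  have efK : ∀ (v : ℕ) (a c d : List ℕ), c.length ≤ n →
      (∀ b, (a ++ v :: (c ++ x :: v :: d)).count b = (y :: (α' ++ [x, y])).count b) →
        RR β (A ++ ((a ++ v :: (c ++ x :: v :: d)) ++ Z))
          (A ++ ((a ++ v :: (c ++ v :: x :: d)) ++ Z)) := by
    intro v a c d hl hK
    have h1 := hef (A ++ a) c (d ++ Z) x v hl ?_ ?_
    · simpa using h1
    · intro b hb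
      have h2 := hM _ hK b (by simp [hb])
      simpa using h2
    · rw [List.count_append]; omega
  have zzK : ∀ (X Y : ℕ) (a c d e : List ℕ),
      (∀ b, (a ++ X :: (c ++ Y :: (d ++ X :: Y :: e))).count b =
        (y :: (α' ++ [x, y])).count b) →
        RR β (A ++ ((a ++ X :: (c ++ Y :: (d ++ X :: Y :: e))) ++ Z))
          (A ++ ((a ++ X :: (c ++ Y :: (d ++ Y :: X :: e))) ++ Z)) := by
    intro X Y a c d e hK
    have h1 := hzz (A ++ a) d c (e ++ Z) X Y ?_
    · simpa using h1
    · intro b hb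
      have h2 := hM _ hK b (by simp [hb])
      simpa using h2
  have ffK : ∀ (X Y : ℕ) (a c d e : List ℕ),
      (∀ b, (a ++ X :: Y :: (d ++ X :: (c ++ Y :: e))).count b =
        (y :: (α' ++ [x, y])).count b) →
        RR β (A ++ ((a ++ X :: Y :: (d ++ X :: (c ++ Y :: e))) ++ Z))
          (A ++ ((a ++ Y :: X :: (d ++ X :: (c ++ Y :: e))) ++ Z)) := by
    intro X Y a c d e hK
    have h1 := hff (A ++ a) d c (e ++ Z) X Y ?_
    · simpa using h1
    · intro b hb
      have h2 := hM _ hK b (by simp [hb])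
      simpa using h2
  have s2K : ∀ (u v : ℕ) (a c : List ℕ), u ∈ A ++ a → v ∈ c ++ Z →
      RR β (A ++ ((a ++ u :: v :: c) ++ Z)) (A ++ ((a ++ v :: u :: c) ++ Z)) := by
    intro u v a c hu hv
    have h1 := s2' (A ++ a) (c ++ Z) u v hu hv
    simpa using h1
  -- the contradiction
  have hsf : SFr α := hcan.sf
  have hsf' : SFr α' := fun c hc => hcan.sf c (hperm.mem_iff.mp hc)
  have hfin : ¬ RR β (A ++ ((y :: (α' ++ [x, y])) ++ Z)) (A ++ ((y :: (α' ++ [y, x])) ++ Z)) := by
    intro h
    apply hE.nr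
    have h1 := hEIS β x s1 s2 P1 P2 P3 Q α α' [y] [x, y] hnd hsf hsf' hRR
    have h2 := hEIS β x s1 s2 P1 P2 P3 Q α α' [y] [y, x] hnd hsf hsf' hRR
    rw [hEW, hEW] at h1 h2
    rw [hEW, hEW]
    exact rrt h1 (rrt h h2.symm)
  have hlen : α'.length ≤ n + 1 := by rw [hperm.length_eq]; exact hE.len
  have hnil : α' ≠ [] := by
    rintro rfl
    apply hfin
    have h1 := efK y [] [] [] (by simp) (by intro b; simp)
    simpa using h1
  have hxA' : x ∈ A := List.count_pos_iff.mp (by omega)
  constructor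
  · -- the first letter
    obtain ⟨v, α'', rfl⟩ := List.exists_cons_of_ne_nil hnil
    have hl : α''.length ≤ n := by simpa using hlen
    rcases hα' v (by simp) with ⟨_, ⟨i, hi, e⟩ | ⟨i, hi, e⟩⟩ | ⟨h0, h2⟩
    · exfalso
      apply hfin
      have hv : v ∈ A := by rw [e]; exact hPA i hi
      have t1 := s2K v y [] (α'' ++ [x, y]) (by simp [hv]) (by simp)
      have t2 := efK y [v] α'' [] hl
        (by intro b; simp only [List.count_append, List.count_cons, List.count_nil]; ring)
      have t3 := s2K v y [] (α'' ++ [y, x]) (by simp [hv]) (by simp)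
      have t1' : RR β (A ++ (v :: y :: (α'' ++ [x, y]) ++ Z)) (A ++ (y :: v :: (α'' ++ [x, y]) ++ Z)) := by
        simpa using t1
      have t2' : RR β (A ++ (v :: y :: (α'' ++ [x, y]) ++ Z)) (A ++ (v :: y :: (α'' ++ [y, x]) ++ Z)) := by
        simpa using t2
      have t3' : RR β (A ++ (v :: y :: (α'' ++ [y, x]) ++ Z)) (A ++ (y :: v :: (α'' ++ [y, x]) ++ Z)) := by
        simpa using t3
      have := rrt t1'.symm (rrt t2' t3')
      simpa using this
    · exact ⟨i, hi, α'', by rw [e]⟩
    · exfalso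
      apply hfin
      have hv : v ∈ α'' := by
        rw [List.count_cons_self] at h2
        exact List.count_pos_iff.mp (by omega)
      obtain ⟨a1, a2, rfl⟩ := List.append_of_mem hv
      have t1 := ffK v y [] (a2 ++ [x]) a1 []
        (by intro b; simp only [List.count_append, List.count_cons, List.count_nil]; ring)
      have t2 := efK y [v] (a1 ++ v :: a2) [] hl
        (by intro b; simp only [List.count_append, List.count_cons, List.count_nil]; ring)
      have t3 := ffK v y [] a2 a1 [x]
        (by intro b; simp only [List.count_append, List.count_cons, List.count_nil]; ring)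
      have t1' : RR β (A ++ (v :: y :: (a1 ++ v :: (a2 ++ [x, y])) ++ Z))
        (A ++ (y :: v :: (a1 ++ v :: (a2 ++ [x, y])) ++ Z)) := by simpa using t1
      have t2' : RR β (A ++ (v :: y :: (a1 ++ v :: (a2 ++ [x, y])) ++ Z))
        (A ++ (v :: y :: (a1 ++ v :: (a2 ++ [y, x])) ++ Z)) := by simpa using t2
      have t3' : RR β (A ++ (v :: y :: (a1 ++ v :: (a2 ++ [y, x])) ++ Z))
        (A ++ (y :: v :: (a1 ++ v :: (a2 ++ [y, x])) ++ Z)) := by simpa using t3
      have := rrt t1'.symm (rrt t2' t3')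
      simpa using this
  · -- the last letter
    obtain ⟨α'', v, rfl⟩ : ∃ l v, α' = l ++ [v] :=
      ⟨α'.dropLast, α'.getLast hnil, (List.dropLast_append_getLast hnil).symm⟩
    have hl : α''.length ≤ n := by simpa using hlen
    rcases hα' v (by simp) with ⟨_, ⟨i, hi, e⟩ | ⟨i, hi, e⟩⟩ | ⟨h0, h2⟩
    · exact ⟨i, hi, α'', by rw [e]⟩
    · exfalso
      apply hfin
      have hv : v ∈ Z := by rw [e]; exact hQZ i hi
      have t1 := s2K x v (y :: α'') [y] (by simp [hxA']) (by simp [hv])
      have t2 := s2K y v (y :: (α'' ++ [x])) [] (by simp) (by simp [hv])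
      have t3 := efK y [] α'' [v] hl
        (by intro b; simp only [List.count_append, List.count_cons, List.count_nil]; ring)
      have t4 := s2K x v (y :: (α'' ++ [y])) [] (by simp [hxA']) (by simp [hv])
      have t5 := s2K y v (y :: α'') [x] (by simp) (by simp [hv])
      have t1' : RR β (A ++ (y :: (α'' ++ [x, v, y]) ++ Z)) (A ++ (y :: (α'' ++ [v, x, y]) ++ Z)) := by
        simpa using t1
      have t2' : RR β (A ++ (y :: (α'' ++ [x, y, v]) ++ Z)) (A ++ (y :: (α'' ++ [x, v, y]) ++ Z)) := by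
        simpa using t2
      have t3' : RR β (A ++ (y :: (α'' ++ [x, y, v]) ++ Z)) (A ++ (y :: (α'' ++ [y, x, v]) ++ Z)) := by
        simpa using t3
      have t4' : RR β (A ++ (y :: (α'' ++ [y, x, v]) ++ Z)) (A ++ (y :: (α'' ++ [y, v, x]) ++ Z)) := by
        simpa using t4
      have t5' : RR β (A ++ (y :: (α'' ++ [y, v, x]) ++ Z)) (A ++ (y :: (α'' ++ [v, y, x]) ++ Z)) := by
        simpa using t5
      have := rrt t1'.symm (rrt t2'.symm (rrt t3' (rrt t4' t5')))
      simpa using this
    · exfalso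
      apply hfin
      have hv : v ∈ α'' := by
        rw [List.count_append] at h2
        have : [v].count v = 1 := by simp
        exact List.count_pos_iff.mp (by omega)
      obtain ⟨a1, a2, rfl⟩ := List.append_of_mem hv
      have hl2 : a1.length + (a2.length + 1) ≤ n := by simpa using hl
      have t1 := efK v (y :: a1) a2 [y] (by omega)
        (by intro b; simp only [List.count_append, List.count_cons, List.count_nil]; ring)
      have t2 := zzK y v [] a1 (a2 ++ [x]) []
        (by intro b; simp only [List.count_append, List.count_cons, List.count_nil]; ring)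
      have t3 := efK y [] (a1 ++ v :: a2) [v] hl
        (by intro b; simp only [List.count_append, List.count_cons, List.count_nil]; ring)
      have t4 := efK v (y :: a1) (a2 ++ [y]) [] (by simp; omega)
        (by intro b; simp only [List.count_append, List.count_cons, List.count_nil]; ring)
      have t5 := zzK y v [] a1 a2 [x]
        (by intro b; simp only [List.count_append, List.count_cons, List.count_nil]; ring)
      have t1' : RR β (A ++ (y :: (a1 ++ v :: (a2 ++ [x, v, y])) ++ Z))
        (A ++ (y :: (a1 ++ v :: (a2 ++ [v, x, y])) ++ Z)) := by simpa using t1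
      have t2' : RR β (A ++ (y :: (a1 ++ v :: (a2 ++ [x, y, v])) ++ Z))
        (A ++ (y :: (a1 ++ v :: (a2 ++ [x, v, y])) ++ Z)) := by simpa using t2
      have t3' : RR β (A ++ (y :: (a1 ++ v :: (a2 ++ [x, y, v])) ++ Z))
        (A ++ (y :: (a1 ++ v :: (a2 ++ [y, x, v])) ++ Z)) := by simpa using t3
      have t4' : RR β (A ++ (y :: (a1 ++ v :: (a2 ++ [y, x, v])) ++ Z))
        (A ++ (y :: (a1 ++ v :: (a2 ++ [y, v, x])) ++ Z)) := by simpa using t4
      have t5' : RR β (A ++ (y :: (a1 ++ v :: (a2 ++ [y, v, x])) ++ Z))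
        (A ++ (y :: (a1 ++ v :: (a2 ++ [v, y, x])) ++ Z)) := by simpa using t5
      have := rrt t1'.symm (rrt t2'.symm (rrt t3' (rrt t4' t5')))
      simpa using this

end Pool.Agent.MVD.H43
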