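import Pool.Agent.MVD.StmtsLoc

set_option autoImplicit false

namespace Pool.Agent.MVD.H43

open Pool.Agent.Helper14_MV Pool.Agent.Helper2_MV Pool.Agent.MVD

/-- the projection to `c`, `d` and three separators -/
def pr (c d r1 r2 s : ℕ) (a : ℕ) : List ℕ :=
  if a = c then [0] else if a = d then [3] else if a = 3 * r1 + 2 then [2]
    else if a = 3 * r2 + 2 then [5] else if a = 3 * s + 2 then [8] else []

theorem pr_c (c d r1 r2 s : ℕ) : pr c d r1 r2 s c = [0] := by simp [pr]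

theorem pr_d {c d : ℕ} (h : c ≠ d) (r1 r2 s : ℕ) : pr c d r1 r2 s d = [3] := by
  simp [pr, h.symm]

theorem pr_o {c d a : ℕ} (hc : a ≠ c) (hd : a ≠ d) (ha : a % 3 ≠ 2) (r1 r2 s : ℕ) :
    pr c d r1 r2 s a = [] := by
  unfold pr
  rw [if_neg hc, if_neg hd, if_neg (by omega), if_neg (by omega), if_neg (by omega)]

theorem pr_blk0 {c d : ℕ} (r1 r2 s : ℕ) (l : List ℕ) (hl : SFr l) (hc : c ∉ l) (hd : d ∉ l) :
    l.flatMap (pr c d r1 r2 s) = [] := by
  rw [List.flatMap_eq_nil_iff]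
  intro a ha
  exact pr_o (ne_of_mem_of_not_mem ha hc) (ne_of_mem_of_not_mem ha hd) (hl a ha) r1 r2 s

theorem pr_blk1 {c d : ℕ} (r1 r2 s : ℕ) (l : List ℕ) (hl : SFr l) (hc : l.count c = 1)
    (hd : d ∉ l) : l.flatMap (pr c d r1 r2 s) = [0] := by
  have hcm : c ∈ l := by
    rw [← List.count_pos_iff]; omega
  obtain ⟨A, C, rfl⟩ := List.append_of_mem hcm
  rw [List.count_append, List.count_cons_self] at hc
  have hA : c ∉ A := by rw [← List.count_eq_zero]; omega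
  have hC : c ∉ C := by rw [← List.count_eq_zero]; omega
  rw [List.flatMap_append, List.flatMap_cons, pr_c,
    pr_blk0 r1 r2 s A (fun a ha => hl a (by simp [ha])) hA (fun h => hd (by simp [h])),
    pr_blk0 r1 r2 s C (fun a ha => hl a (by simp [ha])) hC (fun h => hd (by simp [h]))]
  rfl

theorem pr_blk2 {c d : ℕ} (hcd : c ≠ d) (r1 r2 s : ℕ) (l : List ℕ) (hl : SFr l)
    (hd : l.count d = 1) (hc : c ∉ l) : l.flatMap (pr c d r1 r2 s) = [3] := by
  have hcm : d ∈ l := by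
    rw [← List.count_pos_iff]; omega
  obtain ⟨A, C, rfl⟩ := List.append_of_mem hcm
  rw [List.count_append, List.count_cons_self] at hd
  have hA : d ∉ A := by rw [← List.count_eq_zero]; omega
  have hC : d ∉ C := by rw [← List.count_eq_zero]; omega
  rw [List.flatMap_append, List.flatMap_cons, pr_d hcd,
    pr_blk0 r1 r2 s A (fun a ha => hl a (by simp [ha])) (fun h => hc (by simp [h])) hA,
    pr_blk0 r1 r2 s C (fun a ha => hl a (by simp [ha])) (fun h => hc (by simp [h])) hC]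
  rfl

/-- both letters once -/
theorem pr_blk3 {c d : ℕ} (hcd : c ≠ d) (r1 r2 s : ℕ) (l : List ℕ) (hl : SFr l)
    (hc : l.count c = 1) (hd : l.count d = 1) :
    (Bfr l c d ∧ l.flatMap (pr c d r1 r2 s) = [0, 3]) ∨
      (¬ Bfr l c d ∧ l.flatMap (pr c d r1 r2 s) = [3, 0]) := by
  have hcm : c ∈ l := by
    rw [← List.count_pos_iff]; omega
  obtain ⟨A, C, rfl⟩ := List.append_of_mem hcm
  have hc0 := hc
  rw [List.count_append, List.count_cons_self] at hc
  have hA : c ∉ A := by rw [← List.count_eq_zero]; omega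
  have hC : c ∉ C := by rw [← List.count_eq_zero]; omega
  rw [List.count_append, List.count_cons_of_ne hcd] at hd
  by_cases hdC : d ∈ C
  · left
    have h1 : 0 < C.count d := List.count_pos_iff.mpr hdC
    have hdA : d ∉ A := by rw [← List.count_eq_zero]; omega
    refine ⟨?_, ?_⟩
    · obtain ⟨C1, C2, rfl⟩ := List.append_of_mem hdC
      exact ⟨A, C1, C2, rfl⟩
    · rw [List.flatMap_append, List.flatMap_cons, pr_c,
        pr_blk0 r1 r2 s A (fun a ha => hl a (by simp [ha])) hA hdA,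
        pr_blk2 hcd r1 r2 s C (fun a ha => hl a (by simp [ha])) (by omega) hC]
      rfl
  · right
    have h1 : C.count d = 0 := List.count_eq_zero.mpr hdC
    refine ⟨?_, ?_⟩
    · rintro ⟨X, Y, Z, h⟩
      have h2 : (X ++ c :: (Y ++ d :: Z)).count c = 1 := by rw [← h]; exact hc0
      rw [List.count_append, List.count_cons_self] at h2
      have hX : c ∉ X := by rw [← List.count_eq_zero]; omega
      have h3 : A = X ∧ C = Y ++ d :: Z := by
        have h4 : A = X := by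
          have h5 := congrArg (List.takeWhile (fun a => decide (a ≠ c))) h
          rw [List.takeWhile_append_of_pos (by
              intro a ha; simp only [ne_eq, decide_not, Bool.not_eq_true', decide_eq_false_iff_not]
              rintro rfl; exact hA ha),
            List.takeWhile_append_of_pos (by
              intro a ha; simp only [ne_eq, decide_not, Bool.not_eq_true', decide_eq_false_iff_not]
              rintro rfl; exact hX ha)] at h5
          simpa using h5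
        subst h4
        simpa using h
      exact hdC (by rw [h3.2]; simp)
    · rw [List.flatMap_append, List.flatMap_cons, pr_c,
        pr_blk2 hcd r1 r2 s A (fun a ha => hl a (by simp [ha])) (by omega) hA,
        pr_blk0 r1 r2 s C (fun a ha => hl a (by simp [ha])) hC hdC]
      rfl

/-- blocks without `d` and without the three separators -/
theorem pr_rep {c d : ℕ} (hc : c % 3 ≠ 2) (hd : d % 3 ≠ 2) (r1 r2 s : ℕ) (R : List ℕ)
    (B : ℕ → List ℕ) (hB : ∀ r ∈ R, SFr (B r)) (hdB : ∀ r ∈ R, (B r).count d = 0)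
    (h1 : r1 ∉ R) (h2 : r2 ∉ R) (h3 : s ∉ R) :
    ∃ b, (Bw R B).flatMap (pr c d r1 r2 s) = List.replicate b 0 := by
  refine ⟨_, List.eq_replicate_of_mem ?_⟩
  intro a ha
  rw [List.mem_flatMap] at ha
  obtain ⟨u, hu, hau⟩ := ha
  unfold Bw at hu
  rw [List.mem_flatMap] at hu
  obtain ⟨r, hr, hur⟩ := hu
  rw [List.mem_append, List.mem_singleton] at hur
  rcases hur with hur | rfl
  · by_cases e1 : u = c
    · subst e1
      rw [pr_c] at hau
      simpa using hau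
    · have e2 : u ≠ d := by
        rintro rfl
        have := List.count_eq_zero.mp (hdB r hr)
        exact this hur
      rw [pr_o e1 e2 (hB r hr u hur)] at hau
      simp at hau
  · exfalso
    unfold pr at hau
    rw [if_neg (by omega), if_neg (by omega)] at hau
    have n1 : r ≠ r1 := fun h => h1 (h ▸ hr)
    have n2 : r ≠ r2 := fun h => h2 (h ▸ hr)
    have n3 : r ≠ s := fun h => h3 (h ▸ hr)
    rw [if_neg (by omega), if_neg (by omega), if_neg (by omega)] at hau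
    simp at hau

/-- a block without `d` -/
theorem pr_rep1 {c d : ℕ} (r1 r2 s : ℕ) (l : List ℕ) (hl : SFr l) (hd : d ∉ l) :
    ∃ b, l.flatMap (pr c d r1 r2 s) = List.replicate b 0 := by
  refine ⟨_, List.eq_replicate_of_mem ?_⟩
  intro a ha
  rw [List.mem_flatMap] at ha
  obtain ⟨u, hu, hau⟩ := ha
  by_cases e1 : u = c
  · subst e1
    rw [pr_c] at hau
    simpa using hau
  · rw [pr_o e1 (ne_of_mem_of_not_mem hu hd) (hl u hu)] at hau
    simp at hau

/-- blocks without `c`, `d` and without the three separators -/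
theorem pr_nil {c d : ℕ} (hc : c % 3 ≠ 2) (hd : d % 3 ≠ 2) (r1 r2 s : ℕ) (R : List ℕ)
    (B : ℕ → List ℕ) (hB : ∀ r ∈ R, SFr (B r)) (hcB : ∀ r ∈ R, (B r).count c = 0)
    (hdB : ∀ r ∈ R, (B r).count d = 0)
    (h1 : r1 ∉ R) (h2 : r2 ∉ R) (h3 : s ∉ R) :
    (Bw R B).flatMap (pr c d r1 r2 s) = [] := by
  rw [List.flatMap_eq_nil_iff]
  intro u hu
  unfold Bw at hu
  rw [List.mem_flatMap] at hu
  obtain ⟨r, hr, hur⟩ := hu
  rw [List.mem_append, List.mem_singleton] at hur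
  rcases hur with hur | rfl
  · refine pr_o ?_ ?_ (hB r hr u hur) r1 r2 s
    · rintro rfl
      exact List.count_eq_zero.mp (hcB r hr) hur
    · rintro rfl
      exact List.count_eq_zero.mp (hdB r hr) hur
  · unfold pr
    have n1 : r ≠ r1 := fun h => h1 (h ▸ hr)
    have n2 : r ≠ r2 := fun h => h2 (h ▸ hr)
    have n3 : r ≠ s := fun h => h3 (h ▸ hr)
    rw [if_neg (by omega), if_neg (by omega), if_neg (by omega), if_neg (by omega),
      if_neg (by omega)]

theorem Bw_app (R R' : List ℕ) (B : ℕ → List ℕ) : Bw (R ++ R') B = Bw R B ++ Bw R' B := by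
  simp [Bw]

theorem Bw_cons (r : ℕ) (R : List ℕ) (B : ℕ → List ℕ) :
    Bw (r :: R) B = B r ++ ((3 * r + 2) :: Bw R B) := by
  simp [Bw]

/-- the key identity -/
theorem hpr_key (β : FIC) (X X' : List ℕ) (hX : X = [0, 3] ∧ X' = [3, 0] ∨ X = [3, 0] ∧ X' = [0, 3])
    (b1 b2 : ℕ) (h : RR β ([0, 2, 0, 5, 3, 8] ++ X)
      (List.replicate b1 0 ++ (2 :: (List.replicate b2 0 ++ (5 :: 3 :: 8 :: X'))))) :
    RR β [0, 2, 0, 5, 3, 8, 0, 3] [0, 2, 0, 5, 3, 8, 3, 0] := by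
  have frep : ∀ (g : ℕ → List ℕ) (b : ℕ), g 0 = [0] →
      (List.replicate b 0).flatMap g = List.replicate b 0 := by
    intro g b hg
    induction b with
    | zero => rfl
    | succ b ih => rw [List.replicate_succ, List.flatMap_cons, ih, hg]; rfl
  -- erase 3 and 8
  have h1 : RR β [0, 2, 0, 5, 0]
      (List.replicate b1 0 ++ (2 :: (List.replicate b2 0 ++ [5, 0]))) := by
    have h2 := h.sub (fun a => if a = 3 ∨ a = 8 then [] else [a])
    have f1 := frep (fun a => if a = 3 ∨ a = 8 then [] else [a]) b1 (by simp)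
    have f2 := frep (fun a => if a = 3 ∨ a = 8 then [] else [a]) b2 (by simp)
    simp only [List.flatMap_append, List.flatMap_cons, f1, f2] at h2
    rcases hX with ⟨rfl, rfl⟩ | ⟨rfl, rfl⟩ <;> simpa using h2
  have h3 : RR β ([0, 2, 0, 5, 3, 8] ++ X')
      (List.replicate b1 0 ++ (2 :: (List.replicate b2 0 ++ (5 :: 3 :: 8 :: X')))) := by
    rcases hX with ⟨rfl, rfl⟩ | ⟨rfl, rfl⟩
    · have h2 := h1.sub (fun a => if a = 5 then [5, 3, 8, 3] else [a])
      have f1 := frep (fun a => if a = 5 then [5, 3, 8, 3] else [a]) b1 (by simp)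
      have f2 := frep (fun a => if a = 5 then [5, 3, 8, 3] else [a]) b2 (by simp)
      simp only [List.flatMap_append, List.flatMap_cons, f1, f2] at h2
      simpa using h2
    · have h2 := (h1.sub (fun a => if a = 5 then [5, 3, 8] else [a])).append (RR.refl [3])
      have f1 := frep (fun a => if a = 5 then [5, 3, 8] else [a]) b1 (by simp)
      have f2 := frep (fun a => if a = 5 then [5, 3, 8] else [a]) b2 (by simp)
      simp only [List.flatMap_append, List.flatMap_cons, f1, f2] at h2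
      simpa using h2
  have h4 : RR β ([0, 2, 0, 5, 3, 8] ++ X) ([0, 2, 0, 5, 3, 8] ++ X') := β.trans h h3.symm
  rcases hX with ⟨rfl, rfl⟩ | ⟨rfl, rfl⟩
  · exact h4
  · exact h4.symm

/-- the identity gives `EF` -/
theorem ef_of_key (β : FIC) (h : RR β [0, 2, 0, 5, 3, 8, 0, 3] [0, 2, 0, 5, 3, 8, 3, 0]) :
    ∀ n, EF β n := by
  intro n p c q x y _ _ hx
  obtain ⟨p1, p', rfl⟩ := List.append_of_mem (List.count_pos_iff.mp (by omega : 0 < p.count x))
  have hx' : 0 < (p1 ++ p').count x := by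
    rw [List.count_append, List.count_cons_self] at hx
    rw [List.count_append]
    omega
  have key : ∀ p1 p2 p3 : List ℕ, RR β (p1 ++ x :: (p2 ++ x :: (p3 ++ y :: (c ++ x :: y :: q))))
      (p1 ++ x :: (p2 ++ x :: (p3 ++ y :: (c ++ y :: x :: q)))) := by
    intro p1 p2 p3
    have h1 := ((RR.refl (β := β) p1).append (h.sub (fun a => if a = 0 then [x] else if a = 2 then p2
      else if a = 5 then p3 else if a = 3 then [y] else c))).append (RR.refl q)
    simpa using h1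
  rw [List.count_append] at hx'
  by_cases hp : x ∈ p'
  · obtain ⟨p2, p3, rfl⟩ := List.append_of_mem hp
    have := key p1 p2 p3
    simpa using this
  · have hp1 : x ∈ p1 := by
      rw [← List.count_pos_iff]
      have := List.count_eq_zero.mpr hp
      omega
    obtain ⟨p2, p3, rfl⟩ := List.append_of_mem hp1
    have := key p2 p3 p'
    simpa using this

/-- row HPR -/
theorem hpr (hXVB : XvbStmt) : HprStmt := by
  intro β hvx hnef R1 R2 R3 R4 r1 r2 m s B B' e c d hnd hs hB hB' he hc hd hcd hcB hdB hdB' hde hRR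
  obtain ⟨hcm, hcR, hce⟩ := hXVB β hvx R1 R2 R3 R4 r1 r2 m B B' e c hnd hB hB' he hc hcB hRR
  obtain ⟨S1, S2, rfl⟩ := List.append_of_mem hs
  have hnd' : (R1 ++ r1 :: (R2 ++ r2 :: (S1 ++ s :: (S2 ++ m :: R4)))).Nodup := by
    simpa using hnd
  have hB1 : ∀ r ∈ R1 ++ r1 :: (R2 ++ r2 :: (S1 ++ s :: (S2 ++ m :: R4))), SFr (B r) := by
    simpa using hB
  have hB1' : ∀ r ∈ R1 ++ r1 :: (R2 ++ r2 :: (S1 ++ s :: (S2 ++ m :: R4))), SFr (B' r) := by
    simpa using hB'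
  simp only [List.append_assoc, List.cons_append] at hcB hdB hdB' hRR hcR
  set R : List ℕ := R1 ++ r1 :: (R2 ++ r2 :: (S1 ++ s :: (S2 ++ m :: R4))) with hR
  have mR1 : ∀ q ∈ R1, q ∈ R := fun q hq => by rw [hR]; simp [hq]
  have mR2 : ∀ q ∈ R2, q ∈ R := fun q hq => by rw [hR]; simp [hq]
  have mS1 : ∀ q ∈ S1, q ∈ R := fun q hq => by rw [hR]; simp [hq]
  have mS2 : ∀ q ∈ S2, q ∈ R := fun q hq => by rw [hR]; simp [hq]
  have mR4 : ∀ q ∈ R4, q ∈ R := fun q hq => by rw [hR]; simp [hq]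
  have mr1 : r1 ∈ R := by rw [hR]; simp
  have mr2 : r2 ∈ R := by rw [hR]; simp
  have ms : s ∈ R := by rw [hR]; simp
  have mm : m ∈ R := by rw [hR]; simp
  rw [hR] at hnd'
  simp only [List.nodup_append, List.nodup_cons, List.mem_append, List.mem_cons, not_or] at hnd'
  obtain ⟨_, ⟨⟨a1, a2, a3, a4, a5, a6, a7⟩, _, ⟨⟨b1, b2, b3, b4, b5⟩, _, ⟨⟨c1, c2, c3⟩, _, ⟨d1, _⟩, dS2⟩,
    cS1⟩, bR2⟩, aR1⟩ := hnd'
  -- the letters at the separators
  have g1 : pr c d r1 r2 s (3 * r1 + 2) = [2] := by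
    unfold pr; rw [if_neg (by omega), if_neg (by omega), if_pos rfl]
  have g2 : pr c d r1 r2 s (3 * r2 + 2) = [5] := by
    unfold pr; rw [if_neg (by omega), if_neg (by omega), if_neg (by omega), if_pos rfl]
  have g3 : pr c d r1 r2 s (3 * s + 2) = [8] := by
    unfold pr
    rw [if_neg (by omega), if_neg (by omega), if_neg (by omega), if_neg (by omega), if_pos rfl]
  have g4 : pr c d r1 r2 s (3 * m + 2) = [] := by
    unfold pr
    rw [if_neg (by omega), if_neg (by omega), if_neg (by omega), if_neg (by omega),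
      if_neg (by omega)]
  -- the counts
  have nR1 : ∀ q ∈ R1, q ≠ r1 ∧ q ≠ r2 ∧ q ≠ s ∧ q ≠ m := fun q hq =>
    ⟨aR1 q hq r1 (by simp), aR1 q hq r2 (by simp), aR1 q hq s (by simp), aR1 q hq m (by simp)⟩
  have nR2 : ∀ q ∈ R2, q ≠ r1 ∧ q ≠ r2 ∧ q ≠ s ∧ q ≠ m := fun q hq =>
    ⟨ne_of_mem_of_not_mem hq a1, bR2 q hq r2 (by simp), bR2 q hq s (by simp),
      bR2 q hq m (by simp)⟩
  have nS1 : ∀ q ∈ S1, q ≠ r1 ∧ q ≠ r2 ∧ q ≠ s ∧ q ≠ m := fun q hq =>
    ⟨ne_of_mem_of_not_mem hq a3, ne_of_mem_of_not_mem hq b1, cS1 q hq s (by simp),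
      cS1 q hq m (by simp)⟩
  have nS2 : ∀ q ∈ S2, q ≠ r1 ∧ q ≠ r2 ∧ q ≠ s ∧ q ≠ m := fun q hq =>
    ⟨ne_of_mem_of_not_mem hq a5, ne_of_mem_of_not_mem hq b3, ne_of_mem_of_not_mem hq c1,
      dS2 q hq m (by simp)⟩
  have nR4 : ∀ q ∈ R4, q ≠ r1 ∧ q ≠ r2 ∧ q ≠ s ∧ q ≠ m := fun q hq =>
    ⟨ne_of_mem_of_not_mem hq a7, ne_of_mem_of_not_mem hq b5, ne_of_mem_of_not_mem hq c3,
      ne_of_mem_of_not_mem hq d1⟩
  have hc0 : ∀ q ∈ R, (q ≠ r1 ∧ q ≠ r2 ∧ q ≠ s ∧ q ≠ m) → (B q).count c = 0 := by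
    intro q hq h
    rw [hcB q hq, if_neg]
    rintro (h1 | h1 | h1)
    · exact h.1 h1
    · exact h.2.1 h1
    · exact h.2.2.2 h1
  have hd0 : ∀ q ∈ R, (q ≠ s ∧ q ≠ m) → (B q).count d = 0 := by
    intro q hq h
    rw [hdB q hq, if_neg]
    rintro (h1 | h1)
    · exact h.1 h1
    · exact h.2 h1
  have hd0' : ∀ q ∈ R, (q ≠ s ∧ q ≠ m) → (B' q).count d = 0 := by
    intro q hq h
    rw [hdB' q hq, if_neg]
    rintro (h1 | h1)
    · exact h.1 h1
    · exact h.2 h1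
  have x1 : (B r1).count c = 1 := by rw [hcB r1 mr1, if_pos (Or.inl rfl)]
  have x2 : (B r2).count c = 1 := by rw [hcB r2 mr2, if_pos (Or.inr (Or.inl rfl))]
  have x3 : (B m).count c = 1 := by rw [hcB m mm, if_pos (Or.inr (Or.inr rfl))]
  have x4 : (B s).count c = 0 := by
    rw [hcB s ms, if_neg]
    rintro (h1 | h1 | h1)
    · exact a4 h1.symm
    · exact b2 h1.symm
    · exact c2 h1
  have y1 : (B s).count d = 1 := by rw [hdB s ms, if_pos (Or.inl rfl)]
  have y2 : (B m).count d = 1 := by rw [hdB m mm, if_pos (Or.inr rfl)]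
  have y3 : (B' s).count d = 1 := by rw [hdB' s ms, if_pos (Or.inl rfl)]
  have y4 : (B' m).count d = 1 := by rw [hdB' m mm, if_pos (Or.inr rfl)]
  have y5 : (B r1).count d = 0 := hd0 r1 mr1 ⟨a4, a6⟩
  have y6 : (B r2).count d = 0 := hd0 r2 mr2 ⟨b2, b4⟩
  have y7 : (B' r1).count d = 0 := hd0' r1 mr1 ⟨a4, a6⟩
  have y8 : (B' r2).count d = 0 := hd0' r2 mr2 ⟨b2, b4⟩
  -- the first word
  have w1 : (Bw R1 B).flatMap (pr c d r1 r2 s) = [] :=
    pr_nil hc hd r1 r2 s R1 B (fun r hr => hB1 r (mR1 r hr)) (fun r hr => hc0 r (mR1 r hr) (nR1 r hr))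
      (fun r hr => hd0 r (mR1 r hr) (nR1 r hr).2.2) (fun h => (nR1 _ h).1 rfl)
      (fun h => (nR1 _ h).2.1 rfl) (fun h => (nR1 _ h).2.2.1 rfl)
  have w2 : (Bw R2 B).flatMap (pr c d r1 r2 s) = [] :=
    pr_nil hc hd r1 r2 s R2 B (fun r hr => hB1 r (mR2 r hr)) (fun r hr => hc0 r (mR2 r hr) (nR2 r hr))
      (fun r hr => hd0 r (mR2 r hr) (nR2 r hr).2.2) (fun h => (nR2 _ h).1 rfl)
      (fun h => (nR2 _ h).2.1 rfl) (fun h => (nR2 _ h).2.2.1 rfl)
  have w3 : (Bw S1 B).flatMap (pr c d r1 r2 s) = [] :=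
    pr_nil hc hd r1 r2 s S1 B (fun r hr => hB1 r (mS1 r hr)) (fun r hr => hc0 r (mS1 r hr) (nS1 r hr))
      (fun r hr => hd0 r (mS1 r hr) (nS1 r hr).2.2) (fun h => (nS1 _ h).1 rfl)
      (fun h => (nS1 _ h).2.1 rfl) (fun h => (nS1 _ h).2.2.1 rfl)
  have w4 : (Bw S2 B).flatMap (pr c d r1 r2 s) = [] :=
    pr_nil hc hd r1 r2 s S2 B (fun r hr => hB1 r (mS2 r hr)) (fun r hr => hc0 r (mS2 r hr) (nS2 r hr))
      (fun r hr => hd0 r (mS2 r hr) (nS2 r hr).2.2) (fun h => (nS2 _ h).1 rfl)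
      (fun h => (nS2 _ h).2.1 rfl) (fun h => (nS2 _ h).2.2.1 rfl)
  have w5 : (Bw R4 B).flatMap (pr c d r1 r2 s) = [] :=
    pr_nil hc hd r1 r2 s R4 B (fun r hr => hB1 r (mR4 r hr)) (fun r hr => hc0 r (mR4 r hr) (nR4 r hr))
      (fun r hr => hd0 r (mR4 r hr) (nR4 r hr).2.2) (fun h => (nR4 _ h).1 rfl)
      (fun h => (nR4 _ h).2.1 rfl) (fun h => (nR4 _ h).2.2.1 rfl)
  have v1 := pr_blk1 r1 r2 s (B r1) (hB1 r1 mr1) x1 (List.count_eq_zero.mp y5)
  have v2 := pr_blk1 r1 r2 s (B r2) (hB1 r2 mr2) x2 (List.count_eq_zero.mp y6)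
  have v3 := pr_blk2 hcd r1 r2 s (B s) (hB1 s ms) y1 (List.count_eq_zero.mp x4)
  have hW : (Bw R B).flatMap (pr c d r1 r2 s) =
      [0, 2, 0, 5, 3, 8] ++ (B m).flatMap (pr c d r1 r2 s) := by
    rw [hR]
    simp only [Bw_app, Bw_cons, List.flatMap_append, List.flatMap_cons, w1, w2, w3, w4, w5, v1, v2,
      v3, g1, g2, g3, g4, List.nil_append, List.append_nil]
    rfl
  -- the second word
  have u1 := pr_rep (c := c) hc hd r1 r2 s R1 B' (fun r hr => hB1' r (mR1 r hr))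
    (fun r hr => hd0' r (mR1 r hr) (nR1 r hr).2.2) (fun h => (nR1 _ h).1 rfl)
      (fun h => (nR1 _ h).2.1 rfl) (fun h => (nR1 _ h).2.2.1 rfl)
  have u2 := pr_rep (c := c) hc hd r1 r2 s R2 B' (fun r hr => hB1' r (mR2 r hr))
    (fun r hr => hd0' r (mR2 r hr) (nR2 r hr).2.2) (fun h => (nR2 _ h).1 rfl)
      (fun h => (nR2 _ h).2.1 rfl) (fun h => (nR2 _ h).2.2.1 rfl)
  have u3 : (Bw S1 B').flatMap (pr c d r1 r2 s) = [] :=
    pr_nil hc hd r1 r2 s S1 B' (fun r hr => hB1' r (mS1 r hr)) (fun r hr => hcR r (by simp [hr]))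
      (fun r hr => hd0' r (mS1 r hr) (nS1 r hr).2.2) (fun h => (nS1 _ h).1 rfl)
      (fun h => (nS1 _ h).2.1 rfl) (fun h => (nS1 _ h).2.2.1 rfl)
  have u4 : (Bw S2 B').flatMap (pr c d r1 r2 s) = [] :=
    pr_nil hc hd r1 r2 s S2 B' (fun r hr => hB1' r (mS2 r hr)) (fun r hr => hcR r (by simp [hr]))
      (fun r hr => hd0' r (mS2 r hr) (nS2 r hr).2.2) (fun h => (nS2 _ h).1 rfl)
      (fun h => (nS2 _ h).2.1 rfl) (fun h => (nS2 _ h).2.2.1 rfl)
  have u5 : (Bw R4 B').flatMap (pr c d r1 r2 s) = [] :=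
    pr_nil hc hd r1 r2 s R4 B' (fun r hr => hB1' r (mR4 r hr)) (fun r hr => hcR r (by simp [hr]))
      (fun r hr => hd0' r (mR4 r hr) (nR4 r hr).2.2) (fun h => (nR4 _ h).1 rfl)
      (fun h => (nR4 _ h).2.1 rfl) (fun h => (nR4 _ h).2.2.1 rfl)
  have u6 := pr_rep1 (c := c) r1 r2 s (B' r1) (hB1' r1 mr1) (List.count_eq_zero.mp y7)
  have u7 := pr_rep1 (c := c) r1 r2 s (B' r2) (hB1' r2 mr2) (List.count_eq_zero.mp y8)
  have u8 := pr_blk2 hcd r1 r2 s (B' s) (hB1' s ms) y3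
    (List.count_eq_zero.mp (hcR s (by simp)))
  have u9 := pr_blk0 r1 r2 s e he (List.count_eq_zero.mp hce) (List.count_eq_zero.mp hde)
  obtain ⟨k1, u1⟩ := u1
  obtain ⟨k2, u2⟩ := u2
  obtain ⟨k6, u6⟩ := u6
  obtain ⟨k7, u7⟩ := u7
  have hW' : (Bw R B' ++ e).flatMap (pr c d r1 r2 s) =
      List.replicate (k1 + k6) 0 ++ (2 :: (List.replicate (k2 + k7) 0 ++
        (5 :: 3 :: 8 :: (B' m).flatMap (pr c d r1 r2 s)))) := by
    rw [hR]
    simp only [Bw_app, Bw_cons, List.flatMap_append, List.flatMap_cons, u1, u2, u3, u4, u5, u6, u7,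
      u8, u9, g1, g2, g3, g4, List.nil_append, List.append_nil, List.replicate_add,
      List.append_assoc]
    rfl
  have hpair := hRR.sub (pr c d r1 r2 s)
  rw [hW, hW'] at hpair
  by_contra hcon
  apply hnef
  apply ef_of_key β
  rcases pr_blk3 hcd r1 r2 s (B m) (hB1 m mm) x3 y2 with ⟨p1, p2⟩ | ⟨p1, p2⟩ <;>
    rcases pr_blk3 hcd r1 r2 s (B' m) (hB1' m mm) hcm y4 with ⟨p3, p4⟩ | ⟨p3, p4⟩
  · exact absurd ⟨fun _ => p3, fun _ => p1⟩ hcon
  · rw [p2, p4] at hpair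
    exact hpr_key β [0, 3] [3, 0] (Or.inl ⟨rfl, rfl⟩) _ _ hpair
  · rw [p2, p4] at hpair
    exact hpr_key β [3, 0] [0, 3] (Or.inr ⟨rfl, rfl⟩) _ _ hpair
  · exact absurd ⟨fun h => absurd h p1, fun h => absurd h p3⟩ hcon

end Pool.Agent.MVD.H43
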